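import Pool.Agent.Helper5.Camp.Basic

set_option autoImplicit false

namespace Pool.Agent.Helper5.Camp

open NumberField IsDedekindDomain OnePoint Polynomial

variable {K L : Type} [Field K] [NumberField K] [Field L] [NumberField L] [Algebra K L]

lemma ordv_base (w : HeightOneSpectrum (𝓞 L)) :
    ∃ e : ℕ, 1 ≤ e ∧ ∀ x : K, ordv w (algebraMap K L x) = e * ordv (w.under (𝓞 K)) x := by
  have hlies : w.asIdeal.LiesOver (w.under (𝓞 K)).asIdeal := ⟨rfl⟩
  refine ⟨(w.under (𝓞 K)).asIdeal.ramificationIdx' w.asIdeal, ?_, ?_⟩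
  · exact Nat.one_le_iff_ne_zero.mpr
      (Ideal.IsDedekindDomain.ramificationIdx'_ne_zero_of_liesOver w.asIdeal (w.under (𝓞 K)).ne_bot)
  · intro x
    unfold ordv
    rw [← HeightOneSpectrum.valuation_liesOver L (w.under (𝓞 K)) w x, WithZero.log_pow]
    simp

lemma finite_above {S : Set (HeightOneSpectrum (𝓞 K))} (hS : S.Finite) :
    {w : HeightOneSpectrum (𝓞 L) | w.under (𝓞 K) ∈ S}.Finite := by
  have : {w : HeightOneSpectrum (𝓞 L) | w.under (𝓞 K) ∈ S}
      = ⋃ v ∈ S, {w : HeightOneSpectrum (𝓞 L) | w.under (𝓞 K) = v} := by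
    ext w; simp
  rw [this]
  refine hS.biUnion fun v _ => ?_
  obtain ⟨x, hx⟩ := v.valuation_exists_uniformizer K
  refine (finite_ordv_ne (algebraMap K L x)).subset ?_
  intro w hw
  rw [Set.mem_ofPred_eq] at hw ⊢
  obtain ⟨e, he, h⟩ := ordv_base (K := K) w
  rw [h, hw]
  have : ordv v x = 1 := by
    unfold ordv; rw [hx]; simp
  rw [this]; omega

end Pool.Agent.Helper5.Camp
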