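import Mathlib

/-!
# Campana points on the projective line over a number field

`ordv v x` is the normalised additive valuation; `inter v s t` is the local intersection number
of two distinct points of `ℙ¹(K) = K ∪ {∞}`.
-/

set_option autoImplicit false

namespace Pool.Agent.Helper5.Camp

open NumberField IsDedekindDomain OnePoint

variable {K : Type} [Field K] [NumberField K]

/-- The normalised additive valuation `ord_v : K → ℤ` of a finite place `v` (with `ord_v 0 = 0`
by convention; this value is never used for distinct points). -/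
noncomputable def ordv (v : HeightOneSpectrum (𝓞 K)) (x : K) : ℤ :=
  -(v.valuation K x).log

/-- Local intersection number at `v` of two distinct points of `ℙ¹(K) = K ∪ {∞}`, on the model
`ℙ¹` over the local ring at `v`. -/
noncomputable def inter (v : HeightOneSpectrum (𝓞 K)) : OnePoint K → OnePoint K → ℤ
  | ∞, ∞ => 0
  | ∞, OnePoint.some a => -min 0 (ordv v a)
  | OnePoint.some a, ∞ => -min 0 (ordv v a)
  | OnePoint.some a, OnePoint.some b => ordv v (a - b) - min 0 (ordv v a) - min 0 (ordv v b)

/-- The `S`-integral Campana points of `(ℙ¹, ∑ᵢ (1 - 1 / mᵢ) [Pᵢ])`: the points `t` of `ℙ¹(K)`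
off all `Pᵢ` such that for every finite place `v` outside `S` and every `i` the intersection
number of `t` and `Pᵢ` at `v` is zero or at least `mᵢ` (zero if `mᵢ = ∞`). -/
def campana {ι : Type} (P : ι → OnePoint K) (m : ι → ℕ∞)
    (S : Set (HeightOneSpectrum (𝓞 K))) : Set (OnePoint K) :=
  {t | ∀ i, t ≠ P i ∧ ∀ v ∉ S, 0 < inter v t (P i) → m i ≤ ((inter v t (P i)).toNat : ℕ∞)}

/-- The orbifold Mordell property of `(ℙ¹, ∑ᵢ (1 - 1 / mᵢ) [Pᵢ])` over `K`: for every finite set
`S` of finite places there are only finitely many `S`-integral Campana points. -/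
def Mordell {ι : Type} (P : ι → OnePoint K) (m : ι → ℕ∞) : Prop :=
  ∀ S : Set (HeightOneSpectrum (𝓞 K)), S.Finite → (campana P m S).Finite

section ordv

variable (v : HeightOneSpectrum (𝓞 K))

lemma val_ne {x : K} (hx : x ≠ 0) : v.valuation K x ≠ 0 := (Valuation.ne_zero_iff _).mpr hx

lemma ordv_zero : ordv v (0 : K) = 0 := by simp [ordv]

lemma ordv_one : ordv v (1 : K) = 0 := by simp [ordv]

lemma ordv_mul {x y : K} (hx : x ≠ 0) (hy : y ≠ 0) : ordv v (x * y) = ordv v x + ordv v y := by
  unfold ordv
  rw [map_mul, WithZero.log_mul (val_ne v hx) (val_ne v hy)]; ring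

lemma ordv_neg (x : K) : ordv v (-x) = ordv v x := by
  unfold ordv; rw [Valuation.map_neg]

lemma ordv_sub_comm (x y : K) : ordv v (x - y) = ordv v (y - x) := by
  rw [← ordv_neg v (x - y), neg_sub]

lemma ordv_inv (x : K) : ordv v x⁻¹ = -ordv v x := by
  unfold ordv
  rw [map_inv₀, WithZero.log_inv]

lemma ordv_sq (x : K) : ordv v (x ^ 2) = 2 * ordv v x := by
  unfold ordv
  rw [map_pow, WithZero.log_pow]; simp

lemma ordv_add {x y : K} (hx : x ≠ 0) (hy : y ≠ 0) (hxy : x + y ≠ 0) :
    min (ordv v x) (ordv v y) ≤ ordv v (x + y) := by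
  have h := (v.valuation K).map_add x y
  unfold ordv
  rw [le_max_iff] at h
  rcases h with h | h
  · have := (WithZero.log_le_log (val_ne v hxy) (val_ne v hx)).mpr h
    omega
  · have := (WithZero.log_le_log (val_ne v hxy) (val_ne v hy)).mpr h
    omega

lemma ordv_sub {x y : K} (hx : x ≠ 0) (hy : y ≠ 0) (hxy : x - y ≠ 0) :
    min (ordv v x) (ordv v y) ≤ ordv v (x - y) := by
  rw [sub_eq_add_neg] at hxy ⊢
  have := ordv_add v hx (neg_ne_zero.mpr hy) hxy
  rwa [ordv_neg] at this

/-- Integral elements. -/
lemma min_ordv_add (b x : K) (hb : 0 ≤ ordv v b) : min 0 (ordv v (x + b)) = min 0 (ordv v x) := by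
  rcases eq_or_ne b 0 with rfl | hb0
  · rw [add_zero]
  rcases eq_or_ne x 0 with rfl | hx0
  · rw [zero_add, ordv_zero]; omega
  rcases eq_or_ne (x + b) 0 with h | h
  · rw [h, ordv_zero]
    have : x = -b := by linear_combination h
    rw [this, ordv_neg]; omega
  · have h1 := ordv_add v hx0 hb0 h
    have h2 : min (ordv v (x + b)) (ordv v b) ≤ ordv v x := by
      have := ordv_sub v h hb0 (by rwa [add_sub_cancel_right])
      rwa [add_sub_cancel_right] at this
    omega

lemma finite_ordv_ne (x : K) : {v : HeightOneSpectrum (𝓞 K) | ordv v x ≠ 0}.Finite := by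
  rcases eq_or_ne x 0 with rfl | hx
  · simp [ordv_zero]
  have h1 := HeightOneSpectrum.Support.finite (𝓞 K) x
  have h2 := HeightOneSpectrum.Support.finite (𝓞 K) x⁻¹
  refine (h1.union h2).subset ?_
  intro v hv
  by_contra hcon
  apply hv
  simp only [HeightOneSpectrum.Support, Set.mem_union, Set.mem_ofPred_eq, not_or, not_lt] at hcon
  have a1 := (WithZero.log_le_log (val_ne v hx) one_ne_zero).mpr hcon.1
  have a2 := (WithZero.log_le_log (val_ne v (inv_ne_zero hx)) one_ne_zero).mpr hcon.2
  rw [WithZero.log_one] at a1 a2
  rw [map_inv₀, WithZero.log_inv] at a2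
  unfold ordv; omega

end ordv

/-- Injective self-maps of `ℙ¹(K)` that preserve intersection numbers at almost all places. -/
structure Good (g : OnePoint K → OnePoint K) : Prop where
  inj : Function.Injective g
  inv : ∃ S : Set (HeightOneSpectrum (𝓞 K)), S.Finite ∧
    ∀ v ∉ S, ∀ s t, s ≠ t → inter v (g s) (g t) = inter v s t

lemma Good.id : Good (fun t : OnePoint K => t) :=
  ⟨fun _ _ h => h, ∅, Set.finite_empty, fun _ _ _ _ _ => rfl⟩

lemma Good.comp {g h : OnePoint K → OnePoint K} (hg : Good g) (hh : Good h) :
    Good (fun t => g (h t)) := by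
  obtain ⟨S, hS, h1⟩ := hg.inv
  obtain ⟨T, hT, h2⟩ := hh.inv
  refine ⟨fun a b hab => hh.inj (hg.inj hab), S ∪ T, hS.union hT, ?_⟩
  intro v hv s t hst
  rw [Set.mem_union, not_or] at hv
  rw [h1 v hv.1 _ _ (fun h => hst (hh.inj h)), h2 v hv.2 _ _ hst]

lemma Mordell.of_good {ι : Type} {P : ι → OnePoint K} {m : ι → ℕ∞}
    {g : OnePoint K → OnePoint K} (hg : Good g) (h : Mordell (fun i => g (P i)) m) :
    Mordell P m := by
  intro S hS
  obtain ⟨T, hT, h1⟩ := hg.inv
  have hfin := h (S ∪ T) (hS.union hT)
  refine (hfin.preimage (f := g) hg.inj.injOn).subset ?_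
  intro t ht i
  obtain ⟨h2, h3⟩ := ht i
  refine ⟨fun h => h2 (hg.inj h), fun v hv => ?_⟩
  rw [Set.mem_union, not_or] at hv
  rw [h1 v hv.2 _ _ h2]
  exact h3 v hv.1

/-- Fewer points, smaller multiplicities. -/
lemma Mordell.of_sub {ι κ : Type} {P : ι → OnePoint K} {m : ι → ℕ∞} (φ : κ → ι)
    {m' : κ → ℕ∞} (hm : ∀ j, m' j ≤ m (φ j)) (h : Mordell (fun j => P (φ j)) m') :
    Mordell P m := by
  intro S hS
  refine (h S hS).subset ?_
  intro t ht j
  obtain ⟨h2, h3⟩ := ht (φ j)
  exact ⟨h2, fun v hv hpos => (hm j).trans (h3 v hv hpos)⟩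

/-- Translation. -/
def trans (b : K) : OnePoint K → OnePoint K
  | ∞ => ∞
  | OnePoint.some a => OnePoint.some (a + b)

/-- Scaling. -/
def scale (c : K) : OnePoint K → OnePoint K
  | ∞ => ∞
  | OnePoint.some a => OnePoint.some (c * a)

open Classical in
/-- Inversion. -/
noncomputable def invert : OnePoint K → OnePoint K
  | ∞ => OnePoint.some 0
  | OnePoint.some a => if a = 0 then ∞ else OnePoint.some a⁻¹

lemma good_trans (b : K) : Good (trans b) := by
  refine ⟨?_, {v | ordv v b ≠ 0}, finite_ordv_ne b, ?_⟩
  · intro s t h
    induction s using OnePoint.rec <;> induction t using OnePoint.rec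
    · rfl
    · simp [trans] at h
    · simp [trans] at h
    · simp only [trans] at h
      have := OnePoint.coe_injective h
      rw [add_left_injective b this]
  · intro v hv s t _
    have hb : 0 ≤ ordv v b := by
      rw [Set.mem_ofPred_eq, not_not] at hv; omega
    induction s using OnePoint.rec <;> induction t using OnePoint.rec
    · rfl
    · simp only [trans, inter, min_ordv_add v b _ hb]
    · simp only [trans, inter, min_ordv_add v b _ hb]
    · simp only [trans, inter, min_ordv_add v b _ hb, add_sub_add_right_eq_sub]

lemma good_scale {c : K} (hc : c ≠ 0) : Good (scale c) := by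
  refine ⟨?_, {v | ordv v c ≠ 0}, finite_ordv_ne c, ?_⟩
  · intro s t h
    induction s using OnePoint.rec <;> induction t using OnePoint.rec
    · rfl
    · simp [scale] at h
    · simp [scale] at h
    · simp only [scale] at h
      have := OnePoint.coe_injective h
      rw [mul_left_cancel₀ hc this]
  · intro v hv s t hst
    have hb : ordv v c = 0 := by
      rw [Set.mem_ofPred_eq, not_not] at hv; exact hv
    have key : ∀ a : K, ordv v (c * a) = ordv v a := by
      intro a
      rcases eq_or_ne a 0 with rfl | ha
      · rw [mul_zero]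
      · rw [ordv_mul v hc ha, hb, zero_add]
    induction s using OnePoint.rec <;> induction t using OnePoint.rec
    · rfl
    · simp only [scale, inter, key]
    · simp only [scale, inter, key]
    · simp only [scale, inter, key, ← mul_sub]

lemma good_invert : Good (invert : OnePoint K → OnePoint K) := by
  classical
  refine ⟨?_, ∅, Set.finite_empty, ?_⟩
  · intro s t h
    induction s using OnePoint.rec with
    | infty =>
      induction t using OnePoint.rec with
      | infty => rfl
      | coe b =>
        by_cases hb : b = 0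
        · simp [invert, hb] at h
        · simp only [invert, hb, if_false] at h
          have := OnePoint.coe_injective h
          exact absurd this.symm (inv_ne_zero hb)
    | coe a =>
      induction t using OnePoint.rec with
      | infty =>
        by_cases ha : a = 0
        · simp [invert, ha] at h
        · simp only [invert, ha, if_false] at h
          have := OnePoint.coe_injective h
          exact absurd this (inv_ne_zero ha)
      | coe b =>
        by_cases ha : a = 0
        · by_cases hb : b = 0
          · rw [ha, hb]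
          · simp [invert, ha, hb] at h
        · by_cases hb : b = 0
          · simp [invert, ha, hb] at h
          · simp only [invert, ha, hb, if_false] at h
            have := OnePoint.coe_injective h
            rw [inv_injective this]
  · intro v _ s t hst
    induction s using OnePoint.rec with
    | infty =>
      induction t using OnePoint.rec with
      | infty => exact absurd rfl hst
      | coe b =>
        by_cases hb : b = 0
        · simp [invert, hb, inter, ordv_zero]
        · simp only [invert, hb, if_false, inter, zero_sub, ordv_neg, ordv_inv, ordv_zero]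
          omega
    | coe a =>
      induction t using OnePoint.rec with
      | infty =>
        by_cases ha : a = 0
        · simp [invert, ha, inter, ordv_zero]
        · simp only [invert, ha, if_false, inter, sub_zero, ordv_inv, ordv_zero]
          omega
      | coe b =>
        by_cases ha : a = 0
        · by_cases hb : b = 0
          · exact absurd (by rw [ha, hb]) hst
          · simp only [invert, ha, hb, if_false, if_true, inter, zero_sub, ordv_inv, ordv_zero,
              ordv_neg]
            omega
        · by_cases hb : b = 0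
          · simp only [invert, ha, hb, if_false, if_true, inter, sub_zero, ordv_inv, ordv_zero]
            omega
          · have hab : b - a ≠ 0 := by
              intro h
              apply hst
              rw [sub_eq_zero.mp h]
            have h1 : a⁻¹ - b⁻¹ = (b - a) * (a⁻¹ * b⁻¹) := by
              field_simp
            simp only [invert, ha, hb, if_false, inter, ordv_inv]
            rw [h1, ordv_mul v hab (mul_ne_zero (inv_ne_zero ha) (inv_ne_zero hb)),
              ordv_mul v (inv_ne_zero ha) (inv_ne_zero hb), ordv_inv, ordv_inv,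
              ordv_sub_comm v b a]
            omega

/-- Three distinct points can be moved to `0`, `1`, `∞`. -/
lemma exists_good {p q w : OnePoint K} (hpq : p ≠ q) (hpw : p ≠ w) (hqw : q ≠ w) :
    ∃ g : OnePoint K → OnePoint K, Good g ∧ g p = OnePoint.some 0 ∧ g q = OnePoint.some 1 ∧
      g w = ∞ := by
  classical
  -- first move `w` to infinity
  obtain ⟨g1, hg1, hw⟩ : ∃ g : OnePoint K → OnePoint K, Good g ∧ g w = ∞ := by
    induction w using OnePoint.rec with
    | infty => exact ⟨_, Good.id, rfl⟩
    | coe a =>
      refine ⟨_, good_invert.comp (good_trans (-a)), ?_⟩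
      simp [trans, invert]
  have hp1 : g1 p ≠ ∞ := by rw [← hw]; exact fun h => hpw (hg1.inj h)
  obtain ⟨a, ha⟩ := OnePoint.ne_infty_iff_exists.mp hp1
  have hq1 : g1 q ≠ ∞ := by rw [← hw]; exact fun h => hqw (hg1.inj h)
  obtain ⟨b, hb⟩ := OnePoint.ne_infty_iff_exists.mp hq1
  have hab : b - a ≠ 0 := by
    intro h
    apply hpq
    apply hg1.inj
    rw [← ha, ← hb, sub_eq_zero.mp h]
  refine ⟨_, (good_scale (inv_ne_zero hab)).comp ((good_trans (-a)).comp hg1), ?_, ?_, ?_⟩
  · rw [← ha]; simp [trans, scale]
  · rw [← hb]
    simp only [trans, scale, ← sub_eq_add_neg]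
    rw [inv_mul_cancel₀ hab]
  · rw [hw]; rfl

end Pool.Agent.Helper5.Camp
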