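import Pool.Agent.Helper5.Camp.Base

/-!
# Closed points of the projective line and base change
-/

set_option autoImplicit false

namespace Pool.Agent.Helper5.Camp

open NumberField IsDedekindDomain OnePoint Polynomial

/-- The closed points of `ℙ¹` over a field `K`: the point at infinity, or the zero set of a monic
irreducible polynomial. -/
inductive ClosedPt (K : Type) [Field K] : Type
  | infty : ClosedPt K
  | poly (f : K[X]) (monic : f.Monic) (irr : Irreducible f) : ClosedPt K

/-- The degree of a closed point. -/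
noncomputable def ClosedPt.deg {K : Type} [Field K] : ClosedPt K → ℕ
  | .infty => 1
  | .poly f _ _ => f.natDegree

/-- The closed point given by a point of `ℙ¹(K) = K ∪ {∞}`. -/
noncomputable def ClosedPt.of {K : Type} [Field K] : OnePoint K → ClosedPt K
  | ∞ => .infty
  | OnePoint.some a => .poly (X - C a) (monic_X_sub_C a) (irreducible_X_sub_C a)

/-- `t ∈ ℙ¹(K)` is the closed point `D`. -/
def ClosedPt.Mem {K : Type} [Field K] : OnePoint K → ClosedPt K → Prop
  | ∞, .infty => True
  | OnePoint.some _, .infty => False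
  | ∞, .poly _ _ _ => False
  | OnePoint.some t, .poly f _ _ => f.eval t = 0

variable {K : Type} [Field K] [NumberField K]

/-- The valuation at `v` of the content of a polynomial: the least valuation of its nonzero
coefficients. -/
noncomputable def cont (v : HeightOneSpectrum (𝓞 K)) (f : K[X]) : ℤ :=
  ⨅ i : f.support, ordv v (f.coeff i)

/-- The intersection number at `v`, on the model `ℙ¹` over the local ring at `v`, of the section
given by `t ∈ ℙ¹(K)` and the closure of the closed point `D` (not containing `t`). -/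
noncomputable def interC (v : HeightOneSpectrum (𝓞 K)) : OnePoint K → ClosedPt K → ℤ
  | ∞, .infty => 0
  | OnePoint.some t, .infty => -min 0 (ordv v t)
  | ∞, .poly f _ _ => -cont v f
  | OnePoint.some t, .poly f _ _ =>
      ordv v (f.eval t) - cont v f - f.natDegree * min 0 (ordv v t)

/-- The `S`-integral Campana points of `(ℙ¹, ∑ᵢ (1 - 1 / mᵢ) Dᵢ)`: the points `t` of `ℙ¹(K)`
off all `Dᵢ` such that for every finite place `v` outside `S` and every `i` the intersection
number of `t` and `Dᵢ` at `v` is zero or at least `mᵢ` (zero if `mᵢ = ∞`). -/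
def campanaC {ι : Type} (D : ι → ClosedPt K) (m : ι → ℕ∞)
    (S : Set (HeightOneSpectrum (𝓞 K))) : Set (OnePoint K) :=
  {t | ∀ i, ¬ (D i).Mem t ∧ ∀ v ∉ S, 0 < interC v t (D i) → m i ≤ ((interC v t (D i)).toNat : ℕ∞)}

/-- Orbifold Mordell for `(ℙ¹, ∑ᵢ (1 - 1 / mᵢ) Dᵢ)` over `K`: for every finite set `S` of finite
places there are only finitely many `S`-integral Campana points. -/
def MordellC {ι : Type} (D : ι → ClosedPt K) (m : ι → ℕ∞) : Prop :=
  ∀ S : Set (HeightOneSpectrum (𝓞 K)), S.Finite → (campanaC D m S).Finite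

lemma cont_X_sub_C (v : HeightOneSpectrum (𝓞 K)) (a : K) :
    cont v (X - C a) = min 0 (ordv v a) := by
  have hc1 : (X - C a : K[X]).coeff 1 = 1 := by simp
  have hc0 : (X - C a : K[X]).coeff 0 = -a := by simp
  have h1 : 1 ∈ (X - C a : K[X]).support := by rw [mem_support_iff, hc1]; exact one_ne_zero
  have hbd : BddBelow (Set.range fun i : (X - C a : K[X]).support =>
      ordv v ((X - C a : K[X]).coeff i)) := Set.Finite.bddBelow (Set.toFinite _)
  have : Nonempty (X - C a : K[X]).support := ⟨⟨1, h1⟩⟩
  unfold cont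
  apply le_antisymm
  · refine le_min ?_ ?_
    · refine (ciInf_le hbd ⟨1, h1⟩).trans ?_
      change ordv v ((X - C a : K[X]).coeff 1) ≤ 0
      rw [hc1, ordv_one]
    · by_cases ha : a = 0
      · subst ha
        rw [ordv_zero]
        refine (ciInf_le hbd ⟨1, h1⟩).trans ?_
        change ordv v ((X - C (0 : K) : K[X]).coeff 1) ≤ 0
        rw [hc1, ordv_one]
      · have h0 : 0 ∈ (X - C a : K[X]).support := by
          rw [mem_support_iff, hc0]; exact neg_ne_zero.mpr ha
        refine (ciInf_le hbd ⟨0, h0⟩).trans ?_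
        change ordv v ((X - C a : K[X]).coeff 0) ≤ ordv v a
        rw [hc0, ordv_neg]
  · refine le_ciInf ?_
    rintro ⟨i, hi⟩
    change min 0 (ordv v a) ≤ ordv v ((X - C a : K[X]).coeff i)
    have hi' : i ≤ 1 := by
      have := le_natDegree_of_mem_supp i hi
      rwa [natDegree_X_sub_C] at this
    interval_cases i
    · rw [hc0, ordv_neg]; exact min_le_right _ _
    · rw [hc1, ordv_one]; exact min_le_left _ _

lemma interC_of (v : HeightOneSpectrum (𝓞 K)) (t P : OnePoint K) :
    interC v t (ClosedPt.of P) = inter v t P := by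
  induction t using OnePoint.rec <;> induction P using OnePoint.rec
  · rfl
  · simp only [ClosedPt.of, interC, inter, cont_X_sub_C]
  · rfl
  · simp only [ClosedPt.of, interC, inter, cont_X_sub_C, eval_sub, eval_X, eval_C,
      natDegree_X_sub_C]
    push_cast; ring

lemma mem_of (t P : OnePoint K) : ClosedPt.Mem t (ClosedPt.of P) ↔ t = P := by
  induction t using OnePoint.rec <;> induction P using OnePoint.rec
  · simp [ClosedPt.of, ClosedPt.Mem]
  · simp [ClosedPt.of, ClosedPt.Mem]
  · simp [ClosedPt.of, ClosedPt.Mem]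
  · simp [ClosedPt.of, ClosedPt.Mem, sub_eq_zero]

lemma mordellC_of_iff {ι : Type} (P : ι → OnePoint K) (m : ι → ℕ∞) :
    MordellC (fun i => ClosedPt.of (P i)) m ↔ Mordell P m := by
  have : ∀ S, campanaC (fun i => ClosedPt.of (P i)) m S = campana P m S := by
    intro S
    ext t
    simp only [campanaC, campana, Set.mem_ofPred_eq, interC_of, mem_of, ne_eq]
  unfold MordellC Mordell
  simp only [this]

lemma cont_eq_zero (v : HeightOneSpectrum (𝓞 K)) {f : K[X]} (hf : f ≠ 0)
    (h : ∀ i, ordv v (f.coeff i) = 0) : cont v f = 0 := by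
  have : Nonempty f.support := by
    obtain ⟨i, hi⟩ := nonempty_support_iff.mpr hf
    exact ⟨⟨i, hi⟩⟩
  unfold cont
  simp only [h, ciInf_const]

lemma finite_cont_ne {f : K[X]} (hf : f ≠ 0) :
    {v : HeightOneSpectrum (𝓞 K) | cont v f ≠ 0}.Finite := by
  have h : (⋃ i ∈ Finset.range (f.natDegree + 1),
      {v : HeightOneSpectrum (𝓞 K) | ordv v (f.coeff i) ≠ 0}).Finite :=
    Set.Finite.biUnion (Finset.finite_toSet _) fun i _ => finite_ordv_ne _
  refine h.subset ?_
  intro v hv
  by_contra hc
  apply hv
  refine cont_eq_zero v hf ?_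
  intro i
  by_cases hi : i ∈ Finset.range (f.natDegree + 1)
  · by_contra h2
    exact hc (Set.mem_biUnion hi h2)
  · rw [Finset.mem_range, not_lt] at hi
    rw [coeff_eq_zero_of_natDegree_lt (by omega), ordv_zero]

lemma ordv_prod (v : HeightOneSpectrum (𝓞 K)) {α : Type} (s : Finset α) (g : α → K)
    (hg : ∀ i ∈ s, g i ≠ 0) : ordv v (∏ i ∈ s, g i) = ∑ i ∈ s, ordv v (g i) := by
  classical
  induction s using Finset.induction_on with
  | empty => simp [ordv_one]
  | insert a s ha ih =>
    rw [Finset.prod_insert ha, Finset.sum_insert ha,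
      ordv_mul v (hg a (Finset.mem_insert_self a s))
        (Finset.prod_ne_zero_iff.mpr fun i hi => hg i (Finset.mem_insert_of_mem hi)),
      ih fun i hi => hg i (Finset.mem_insert_of_mem hi)]

end Pool.Agent.Helper5.Camp
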