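import Pool.Agent.Helper5.Camp.Basic

set_option autoImplicit false

namespace Pool.Agent.Helper5.Camp

open NumberField IsDedekindDomain OnePoint
open scoped ENNReal

variable {K : Type} [Field K] [NumberField K]

/-- The map `t ↦ (2 t - 1) ^ 2`. -/
def sqMap : OnePoint K → OnePoint K
  | ∞ => ∞
  | OnePoint.some t => OnePoint.some ((2 * t - 1) ^ 2)

lemma sqMap_fiber (b : OnePoint K) : (sqMap ⁻¹' {b} : Set (OnePoint K)).Finite := by
  classical
  induction b using OnePoint.rec with
  | infty =>
    refine (Set.finite_singleton (∞ : OnePoint K)).subset ?_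
    intro t ht
    induction t using OnePoint.rec with
    | infty => rfl
    | coe t => simp [sqMap] at ht
  | coe b =>
    by_cases hb : ∃ c : K, c ^ 2 = b
    · obtain ⟨c, rfl⟩ := hb
      refine (Set.toFinite ({OnePoint.some ((1 + c) / 2), OnePoint.some ((1 - c) / 2)} :
        Set (OnePoint K))).subset ?_
      intro t ht
      induction t using OnePoint.rec with
      | infty => simp [sqMap] at ht
      | coe t =>
        simp only [sqMap, Set.mem_preimage, Set.mem_singleton_iff] at ht
        have h := OnePoint.coe_injective ht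
        rcases sq_eq_sq_iff_eq_or_eq_neg.mp h with h | h
        · left
          congr 1
          have : 2 * t = 1 + c := by linear_combination h
          rw [← this]; field_simp
        · right
          rw [Set.mem_singleton_iff]
          congr 1
          have : 2 * t = 1 - c := by linear_combination h
          rw [← this]; field_simp
    · refine Set.finite_empty.subset ?_
      intro t ht
      induction t using OnePoint.rec with
      | infty => simp [sqMap] at ht
      | coe t =>
        simp only [sqMap, Set.mem_preimage, Set.mem_singleton_iff] at ht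
        exact (hb ⟨_, OnePoint.coe_injective ht⟩).elim

/-- The points `0, 1, ∞`. -/
def std3 : Fin 3 → OnePoint K := ![OnePoint.some 0, OnePoint.some 1, ∞]

lemma inter_zero (v : HeightOneSpectrum (𝓞 K)) (s : K) :
    inter v (OnePoint.some s) (OnePoint.some 0) = ordv v s - min 0 (ordv v s) := by
  simp [inter, ordv_zero]

lemma inter_one (v : HeightOneSpectrum (𝓞 K)) (s : K) :
    inter v (OnePoint.some s) (OnePoint.some 1) = ordv v (s - 1) - min 0 (ordv v s) := by
  simp [inter, ordv_one]

lemma inter_infty (v : HeightOneSpectrum (𝓞 K)) (s : K) :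
    inter v (OnePoint.some s) ∞ = - min 0 (ordv v s) := rfl

lemma enat_le {a : ℕ} {b : ℤ} : ((a : ℕ∞) ≤ ((b.toNat : ℕ) : ℕ∞)) ↔ a ≤ b.toNat := Nat.cast_le

theorem mordell_334 (h : Mordell (std3 : Fin 3 → OnePoint K) ![2, 3, 7]) :
    Mordell (std3 : Fin 3 → OnePoint K) ![3, 3, 4] := by
  intro S hS
  have hfin := h (S ∪ {v | ordv v (2 : K) ≠ 0}) (hS.union (finite_ordv_ne _))
  have hpre : (sqMap ⁻¹' (campana (std3 : Fin 3 → OnePoint K) ![2, 3, 7]
      (S ∪ {v | ordv v (2 : K) ≠ 0}))).Finite := by
    refine hfin.preimage' ?_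
    intro b _
    exact sqMap_fiber b
  refine (hpre.union (Set.finite_singleton (OnePoint.some ((1 : K) / 2)))).subset ?_
  intro t ht
  induction t using OnePoint.rec with
  | infty => exact absurd rfl (ht 2).1
  | coe t =>
    by_cases hx : 2 * t - 1 = 0
    · right
      rw [Set.mem_singleton_iff]
      congr 1
      have : 2 * t = 1 := by linear_combination hx
      field_simp
      linear_combination this
    left
    have ht0 : t ≠ 0 := by
      intro h0; exact (ht 0).1 (by rw [h0]; rfl)
    have ht1 : t - 1 ≠ 0 := by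
      intro h0; exact (ht 1).1 (by rw [sub_eq_zero.mp h0]; rfl)
    -- local facts
    have loc : ∀ v ∉ S ∪ {v | ordv v (2 : K) ≠ 0},
        (0 < inter v (OnePoint.some ((2 * t - 1) ^ 2)) (OnePoint.some 0) →
          2 ≤ (inter v (OnePoint.some ((2 * t - 1) ^ 2)) (OnePoint.some 0)).toNat) ∧
        (0 < inter v (OnePoint.some ((2 * t - 1) ^ 2)) (OnePoint.some 1) →
          3 ≤ (inter v (OnePoint.some ((2 * t - 1) ^ 2)) (OnePoint.some 1)).toNat) ∧
        (0 < inter v (OnePoint.some ((2 * t - 1) ^ 2)) ∞ →
          7 ≤ (inter v (OnePoint.some ((2 * t - 1) ^ 2)) ∞).toNat) := by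
      intro v hv
      rw [Set.mem_union, not_or, Set.mem_ofPred_eq, not_not] at hv
      obtain ⟨hvS, hv2⟩ := hv
      have e0 : 0 < inter v (OnePoint.some t) (OnePoint.some 0) →
          3 ≤ (inter v (OnePoint.some t) (OnePoint.some 0)).toNat := fun hp =>
        enat_le.mp ((ht 0).2 v hvS hp)
      have e1 : 0 < inter v (OnePoint.some t) (OnePoint.some 1) →
          3 ≤ (inter v (OnePoint.some t) (OnePoint.some 1)).toNat := fun hp =>
        enat_le.mp ((ht 1).2 v hvS hp)
      have e2 : 0 < inter v (OnePoint.some t) ∞ →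
          4 ≤ (inter v (OnePoint.some t) ∞).toNat := fun hp =>
        enat_le.mp ((ht 2).2 v hvS hp)
      rw [inter_zero, inter_one, inter_infty] at *
      have two : (2 : K) ≠ 0 := two_ne_zero
      have o2t : ordv v (2 * t) = ordv v t := by rw [ordv_mul v two ht0, hv2, zero_add]
      have m1 : min 0 (ordv v (t - 1)) = min 0 (ordv v t) := by
        have := min_ordv_add v (-1) t (by rw [ordv_neg, ordv_one])
        rwa [← sub_eq_add_neg] at this
      have m2 : min 0 (ordv v (2 * t - 1)) = min 0 (ordv v t) := by
        have := min_ordv_add v (-1) (2 * t) (by rw [ordv_neg, ordv_one])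
        rwa [← sub_eq_add_neg, o2t] at this
      have osq : ordv v ((2 * t - 1) ^ 2) = 2 * ordv v (2 * t - 1) := ordv_sq v _
      have os1 : ordv v ((2 * t - 1) ^ 2 - 1) = ordv v t + ordv v (t - 1) := by
        have : (2 * t - 1) ^ 2 - 1 = (2 * 2) * (t * (t - 1)) := by ring
        rw [this, ordv_mul v (mul_ne_zero two two) (mul_ne_zero ht0 ht1), ordv_mul v two two,
          ordv_mul v ht0 ht1, hv2]
        ring
      have hmin : min (ordv v t) (ordv v (t - 1)) ≤ 0 := by
        have := ordv_sub v ht0 ht1 (by rw [sub_sub_cancel]; exact one_ne_zero)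
        rwa [sub_sub_cancel, ordv_one] at this
      rw [osq, os1]
      refine ⟨?_, ?_, ?_⟩ <;> omega
    intro i
    fin_cases i
    · refine ⟨?_, fun v hv hp => ?_⟩
      · intro hc
        exact hx (pow_eq_zero_iff two_ne_zero |>.mp (OnePoint.coe_injective hc))
      · exact enat_le.mpr ((loc v hv).1 hp)
    · refine ⟨?_, fun v hv hp => ?_⟩
      · intro hc
        have h1 : (2 * t - 1) ^ 2 = 1 := OnePoint.coe_injective hc
        have h2 : t * (t - 1) = 0 := by
          have : 4 * (t * (t - 1)) = 0 := by linear_combination h1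
          simpa using this
        exact mul_ne_zero ht0 ht1 h2
      · exact enat_le.mpr ((loc v hv).2.1 hp)
    · refine ⟨?_, fun v hv hp => ?_⟩
      · intro hc
        exact OnePoint.coe_ne_infty _ hc
      · exact enat_le.mpr ((loc v hv).2.2 hp)

end Pool.Agent.Helper5.Camp
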