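import Pool.Agent.Helper5.Camp.Closed

/-!
# Base change of Campana points
-/

set_option autoImplicit false

namespace Pool.Agent.Helper5.Camp

open NumberField IsDedekindDomain OnePoint Polynomial

variable {K L : Type} [Field K] [NumberField K] [Field L] [NumberField L] [Algebra K L]

/-- The points of `ℙ¹(L)` above a closed point of `ℙ¹` over `K`. -/
def fiber (L : Type) [Field L] [Algebra K L] : ClosedPt K → Set (OnePoint L)
  | .infty => {∞}
  | .poly f _ _ => OnePoint.some '' {α | aeval α f = 0}

/-- `f` splits in `L`. -/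
def SplitsIn (L : Type) [Field L] [Algebra K L] : ClosedPt K → Prop
  | .infty => True
  | .poly f _ _ => (f.map (algebraMap K L)).Splits

/-- The inclusion `ℙ¹(K) → ℙ¹(L)`. -/
def emb (L : Type) [Field L] [Algebra K L] : OnePoint K → OnePoint L
  | ∞ => ∞
  | OnePoint.some a => OnePoint.some (algebraMap K L a)

omit [NumberField K] [NumberField L] in
lemma emb_injective : Function.Injective (emb (K := K) L) := by
  intro s t h
  induction s using OnePoint.rec <;> induction t using OnePoint.rec
  · rfl
  · simp [emb] at h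
  · simp [emb] at h
  · simp only [emb] at h
    rw [(algebraMap K L).injective (OnePoint.coe_injective h)]

/-- A good place for a split polynomial. -/
structure GoodPlace (f : K[X]) (w : HeightOneSpectrum (𝓞 L)) : Prop where
  root : ∀ α : L, aeval α f = 0 → ordv w α = 0
  diff : ∀ α β : L, aeval α f = 0 → aeval β f = 0 → α ≠ β → ordv w (α - β) = 0
  cont : cont (w.under (𝓞 K)) f = 0

lemma finite_not_good {f : K[X]} (hf : f ≠ 0) :
    {w : HeightOneSpectrum (𝓞 L) | ¬ GoodPlace f w}.Finite := by
  classical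
  have hR : {α : L | aeval α f = 0}.Finite := by
    refine (Finset.finite_toSet (f.aroots L).toFinset).subset ?_
    intro α hα
    rw [Finset.mem_coe, Multiset.mem_toFinset, mem_aroots]
    exact ⟨hf, hα⟩
  have h1 : (⋃ α ∈ {α : L | aeval α f = 0},
      {w : HeightOneSpectrum (𝓞 L) | ordv w α ≠ 0}).Finite :=
    hR.biUnion fun α _ => finite_ordv_ne α
  have h2 : (⋃ α ∈ {α : L | aeval α f = 0}, ⋃ β ∈ {β : L | aeval β f = 0},
      {w : HeightOneSpectrum (𝓞 L) | ordv w (α - β) ≠ 0}).Finite :=
    hR.biUnion fun α _ => hR.biUnion fun β _ => finite_ordv_ne _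
  have h3 : {w : HeightOneSpectrum (𝓞 L) | w.under (𝓞 K) ∈
      {v : HeightOneSpectrum (𝓞 K) | cont v f ≠ 0}}.Finite := finite_above (finite_cont_ne hf)
  refine ((h1.union h2).union h3).subset ?_
  intro w hw
  by_contra hc
  rw [Set.mem_union, Set.mem_union, not_or, not_or] at hc
  obtain ⟨⟨c1, c2⟩, c3⟩ := hc
  apply hw
  refine ⟨?_, ?_, ?_⟩
  · intro α hα
    by_contra h
    exact c1 (Set.mem_biUnion hα h)
  · intro α β hα hβ _
    by_contra h
    exact c2 (Set.mem_biUnion hα (Set.mem_biUnion hβ h))
  · by_contra h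
    exact c3 h

/-- The local comparison at a finite closed point. -/
lemma local_poly {f : K[X]} (hm : f.Monic) (hi : Irreducible f)
    (hs : (f.map (algebraMap K L)).Splits) {w : HeightOneSpectrum (𝓞 L)} (hw : GoodPlace f w)
    {a : K} (ha : f.eval a ≠ 0) {α : L} (hα : aeval α f = 0) {m : ℕ∞}
    (h : 0 < interC (w.under (𝓞 K)) (OnePoint.some a) (.poly f hm hi) →
      m ≤ ((interC (w.under (𝓞 K)) (OnePoint.some a) (.poly f hm hi)).toNat : ℕ∞))
    (hpos : 0 < inter w (OnePoint.some (algebraMap K L a)) (OnePoint.some α)) :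
    m ≤ ((inter w (OnePoint.some (algebraMap K L a)) (OnePoint.some α)).toNat : ℕ∞) := by
  classical
  obtain ⟨e, he, hbase⟩ := ordv_base (K := K) w
  set v := w.under (𝓞 K) with hv
  set A := algebraMap K L a with hA
  have hfA : ∀ β : L, aeval β f = 0 → A - β ≠ 0 := by
    intro β hβ hz
    rw [← sub_eq_zero.mp hz, hA, aeval_algebraMap_apply, coe_aeval_eq_eval] at hβ
    exact ha ((map_eq_zero _).mp hβ)
  have hmin : ∀ β : L, aeval β f = 0 → min 0 (ordv w (A - β)) = min 0 (ordv w A) := by
    intro β hβ
    have := min_ordv_add w (-β) A (by rw [ordv_neg, hw.root β hβ])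
    rwa [← sub_eq_add_neg] at this
  simp only [inter, hw.root α hα] at hpos ⊢
  have hA0 : 0 ≤ ordv w A := by
    by_contra hc
    have := hmin α hα
    omega
  have hpos' : 0 < ordv w (A - α) := by omega
  -- the other factors are units
  have hother : ∀ β : L, aeval β f = 0 → β ≠ α → ordv w (A - β) = 0 := by
    intro β hβ hne
    have h1 : 0 ≤ ordv w (A - β) := by
      have := hmin β hβ
      omega
    have h2 := ordv_sub w (hfA β hβ) (hfA α hα) (by
      rw [sub_sub_sub_cancel_left]; exact sub_ne_zero.mpr hne.symm)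
    rw [sub_sub_sub_cancel_left, hw.diff α β hα hβ hne.symm] at h2
    omega
  -- product formula
  have hsep : (f.map (algebraMap K L)).Separable := hi.separable.map
  have hnodup : (f.map (algebraMap K L)).roots.Nodup := nodup_roots hsep
  have hroot : ∀ β, β ∈ (f.map (algebraMap K L)).roots ↔ aeval β f = 0 := by
    intro β
    rw [mem_roots (hm.map _).ne_zero, IsRoot.def, eval_map_algebraMap]
  obtain ⟨t, ht⟩ := Multiset.exists_cons_of_mem ((hroot α).mpr hα)
  have hαt : α ∉ t := by
    rw [ht] at hnodup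
    exact (Multiset.nodup_cons.mp hnodup).1
  have hprod : algebraMap K L (f.eval a) = (A - α) * (t.map fun β => A - β).prod := by
    have h1 := hs.eq_prod_roots
    rw [(hm.map _).leadingCoeff, C_1, one_mul, ht, Multiset.map_cons, Multiset.prod_cons] at h1
    have h2 : (f.map (algebraMap K L)).eval A = algebraMap K L (f.eval a) := by
      rw [hA, eval_map_algebraMap, aeval_algebraMap_apply, coe_aeval_eq_eval]
    rw [← h2, h1, eval_mul, eval_sub, eval_X, eval_C, eval_multiset_prod, Multiset.map_map]
    congr 3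
    ext β
    simp
  have hzero : ∀ u : Multiset L, (∀ β ∈ u, aeval β f = 0 ∧ β ≠ α) →
      (u.map fun β => A - β).prod ≠ 0 ∧ ordv w (u.map fun β => A - β).prod = 0 := by
    intro u
    induction u using Multiset.induction_on with
    | empty => intro _; simp [ordv_one]
    | cons β u ih =>
      intro hu
      have hβ := hu β (Multiset.mem_cons_self β u)
      have ih' := ih fun γ hγ => hu γ (Multiset.mem_cons_of_mem hγ)
      rw [Multiset.map_cons, Multiset.prod_cons]
      refine ⟨mul_ne_zero (hfA β hβ.1) ih'.1, ?_⟩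
      rw [ordv_mul w (hfA β hβ.1) ih'.1, ih'.2, hother β hβ.1 hβ.2, add_zero]
  have ht0 := hzero t (by
    intro β hβ
    refine ⟨(hroot β).mp (by rw [ht]; exact Multiset.mem_cons_of_mem hβ), ?_⟩
    rintro rfl
    exact hαt hβ)
  have hord : (e : ℤ) * ordv v (f.eval a) = ordv w (A - α) := by
    rw [← hbase, hprod, ordv_mul w (hfA α hα) ht0.1, ht0.2, add_zero]
  have hv0 : 0 ≤ ordv v a := by
    have h1 := hbase a
    rw [← hA] at h1
    by_contra hc
    have : (e : ℤ) * ordv v a < 0 := mul_neg_of_pos_of_neg (by exact_mod_cast he) (by omega)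
    omega
  have hvf : 0 < ordv v (f.eval a) := by
    by_contra hc
    have : (e : ℤ) * ordv v (f.eval a) ≤ 0 :=
      mul_nonpos_of_nonneg_of_nonpos (by positivity) (by omega)
    omega
  have hcont : cont v f = 0 := hw.cont
  have hC : interC v (OnePoint.some a) (.poly f hm hi) = ordv v (f.eval a) := by
    simp only [interC, hcont, min_eq_left hv0]
    ring
  rw [hC] at h
  refine (h hvf).trans ?_
  rw [Nat.cast_le]
  have h3 : ordv v (f.eval a) ≤ (e : ℤ) * ordv v (f.eval a) := by
    nlinarith [show (1 : ℤ) ≤ e by exact_mod_cast he]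
  omega

/-- The local comparison at infinity. -/
lemma local_infty {w : HeightOneSpectrum (𝓞 L)} {a : K} {m : ℕ∞}
    (h : 0 < interC (w.under (𝓞 K)) (OnePoint.some a) .infty →
      m ≤ ((interC (w.under (𝓞 K)) (OnePoint.some a) .infty).toNat : ℕ∞))
    (hpos : 0 < inter w (OnePoint.some (algebraMap K L a)) ∞) :
    m ≤ ((inter w (OnePoint.some (algebraMap K L a)) ∞).toNat : ℕ∞) := by
  obtain ⟨e, he, hbase⟩ := ordv_base (K := K) w
  simp only [inter, interC, hbase] at *
  set x := ordv (w.under (𝓞 K)) a
  have hx : x < 0 := by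
    by_contra hc
    have : 0 ≤ (e : ℤ) * x := mul_nonneg (by positivity) (by omega)
    omega
  refine (h (by omega)).trans ?_
  rw [Nat.cast_le]
  have h3 : (e : ℤ) * x ≤ x := by
    nlinarith [show (1 : ℤ) ≤ e by exact_mod_cast he]
  omega

/-- The bad places of a closed point. -/
def bad (L : Type) [Field L] [NumberField L] [Algebra K L] :
    ClosedPt K → Set (HeightOneSpectrum (𝓞 L))
  | .infty => ∅
  | .poly f _ _ => {w | ¬ GoodPlace f w}

lemma finite_bad (D : ClosedPt K) : (bad L D).Finite := by
  cases D with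
  | infty => exact Set.finite_empty
  | poly f hm hi => exact finite_not_good hm.ne_zero

lemma local_all {D : ClosedPt K} (hs : SplitsIn L D) {x : OnePoint L} (hx : x ∈ fiber L D) {a : K}
    (ha : ¬ D.Mem (OnePoint.some a)) {m : ℕ∞} :
    OnePoint.some (algebraMap K L a) ≠ x ∧ ∀ w ∉ bad L D,
      (0 < interC (w.under (𝓞 K)) (OnePoint.some a) D →
        m ≤ ((interC (w.under (𝓞 K)) (OnePoint.some a) D).toNat : ℕ∞)) →
      0 < inter w (OnePoint.some (algebraMap K L a)) x →
      m ≤ ((inter w (OnePoint.some (algebraMap K L a)) x).toNat : ℕ∞) := by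
  cases D with
  | infty =>
    have hx' : x = ∞ := hx
    subst hx'
    exact ⟨OnePoint.coe_ne_infty _, fun w _ h hpos => local_infty h hpos⟩
  | poly f hm hi =>
    obtain ⟨α, hα, rfl⟩ := hx
    have ha : f.eval a ≠ 0 := ha
    refine ⟨?_, fun w hw h hpos => ?_⟩
    · intro hc
      have h3 : algebraMap K L a = α := OnePoint.coe_injective hc
      have hα' : aeval α f = 0 := hα
      rw [← h3, aeval_algebraMap_apply, coe_aeval_eq_eval] at hα'
      exact ha ((map_eq_zero _).mp hα')
    · have hw' : GoodPlace f w := by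
        by_contra hc
        exact hw hc
      exact local_poly hm hi hs hw' ha hα h hpos

theorem MordellC.of_base {ι : Type} [Finite ι] {D : ι → ClosedPt K} {m : ι → ℕ∞}
    (hs : ∀ i, SplitsIn L (D i))
    (h : Mordell (fun p : (i : ι) × {x : OnePoint L // x ∈ fiber L (D i)} => (p.2 : OnePoint L))
      (fun p => m p.1)) : MordellC D m := by
  classical
  intro S hS
  set T : Set (HeightOneSpectrum (𝓞 L)) := {w | w.under (𝓞 K) ∈ S} ∪ ⋃ i, bad L (D i) with hT
  have hTf : T.Finite := (finite_above hS).union (Set.finite_iUnion fun i => finite_bad (D i))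
  have hfin := h T hTf
  refine ((hfin.preimage (f := emb L) emb_injective.injOn).union
    (Set.finite_singleton (∞ : OnePoint K))).subset ?_
  intro t ht
  induction t using OnePoint.rec with
  | infty => right; rfl
  | coe a =>
    left
    rintro ⟨i, x, hx⟩
    obtain ⟨h1, h2⟩ := ht i
    obtain ⟨h3, h4⟩ := local_all (m := m i) (hs i) hx h1
    refine ⟨h3, fun w hw hpos => ?_⟩
    refine h4 w (fun hc => hw (Or.inr (Set.mem_iUnion.mpr ⟨i, hc⟩))) (fun hp => ?_) hpos
    exact h2 _ (fun hc => hw (Or.inl hc)) hp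

end Pool.Agent.Helper5.Camp
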